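import Pool.Agent.Helper20.P3F.St1
import Pool.Agent.Helper78.EQ.M_CRQ

/-!
# Project P3F: module CRQ3 (the strong type estimate for bounded functions, exponent 3)
-/

set_option autoImplicit false

open MeasureTheory Set Filter Topology
open scoped ENNReal RealInnerProductSpace

namespace Pool.Agent.Helper11.P3F

open Pool.Agent.Helper68.LM (Pl BB Bd Av HL)
open Pool.Agent.Helper20.RG Pool.Agent.Helper20.EQ Pool.Agent.Helper20.P3F
open Pool.Agent.Helper68.EP (elt GapP)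

open Pool.Agent.Helper78.EQ.CRQ in
theorem hCRQ3 (hDMP : StDMP) (hEER3 : StEER3) (hEVS3 : StEVS3) :
    Pool.Agent.Helper20.P3F.StCRQ3 := by
  intro φ τ A c hG hA hGp
  obtain ⟨p, hp⟩ : ∃ p : ℝ, p = 3 := ⟨_, rfl⟩
  rw [← hp] at hGp ⊢
  have hp2 : 2 < p := by rw [hp]; norm_num
  obtain ⟨C₁, hC1, hD⟩ := hDMP φ τ A p c hG hA hGp (by linarith)
  obtain ⟨C₂, hC2, hE⟩ := hEER3 φ τ A p c hG hA hGp hp2 hp.le
  obtain ⟨C₃, hC3, hV⟩ := hEVS3 φ τ A c hG hA (hp ▸ hGp)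
  obtain ⟨R₀, hR⟩ : ∃ R₀, R₀ = max C₁ C₃ := ⟨_, rfl⟩
  have hR1 : C₁ ≤ R₀ := by rw [hR]; exact le_max_left _ _
  have hR3 : C₃ ≤ R₀ := by rw [hR]; exact le_max_right _ _
  obtain ⟨C₄, hC4, hB⟩ := bad_sum hp2 (show 0 < R₀ by linarith)
  have hC10 : 0 < C₁ := by linarith
  have hp0 : 0 < p := by linarith
  refine ⟨(2 * C₁) ^ p * (C₄ + C₂ + C₃), by positivity, fun g hg hg0 => ?_⟩
  obtain ⟨F, hF⟩ : ∃ F : Pl → ℝ≥0∞, F = fun x =>
    ⨆ k : ℤ, ENNReal.ofReal (Av (arc c φ) ((2 : ℝ) ^ k) g x) := ⟨_, rfl⟩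
  obtain ⟨S, hS⟩ : ∃ S : ℤ → Set Pl, S = fun l =>
    {x | ENNReal.ofReal (C₁ * (2 : ℝ) ^ l) < F x} := ⟨_, rfl⟩
  -- the level sets
  have hvol : ∀ l : ℤ, volume (S l) ≤ volume {x | ¬ Gd R₀ l g x} +
      volume {x | ∃ (k : ℤ) (u : ℕ), 2 ≤ u ∧
        (2 : ℝ) ^ l / (u : ℝ) ^ 2 ≤ |er c φ τ u k (fh l g) x|} +
      volume {x | Gd R₀ l g x ∧ ∃ k : ℤ,
        ENNReal.ofReal ((2 : ℝ) ^ l) ≤ ∑' u : ℕ, (if 2 ≤ u then Ht c φ τ u k (fh l g) x else 0)} := by
    intro l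
    refine le_trans ?_ ((measure_union_le _ _).trans (add_le_add_left (measure_union_le _ _) _))
    apply measure_mono_ae
    filter_upwards [hD R₀ g hR1 hg hg0] with x hx
    intro hxS
    have hxS' : ENNReal.ofReal (C₁ * (2 : ℝ) ^ l) < F x := by
      rw [hS] at hxS
      exact hxS
    rw [hF] at hxS'
    obtain ⟨k, hk⟩ := lt_iSup_iff.1 hxS'
    have hk' : C₁ * (2 : ℝ) ^ l < Av (arc c φ) ((2 : ℝ) ^ k) g x := by
      rwa [ENNReal.ofReal_lt_ofReal_iff_of_nonneg (by positivity)] at hk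
    by_cases hgd : Gd R₀ l g x
    · rcases hx k l hgd hk' with ⟨u, h1, h2⟩ | h1
      · exact Or.inl (Or.inr ⟨k, u, h1, h2⟩)
      · exact Or.inr ⟨hgd, k, h1⟩
    · exact Or.inl (Or.inl hgd)
  have hint : ∫⁻ x, F x ^ p ≤ ∑' l : ℤ, ENNReal.ofReal ((2 * C₁) ^ p) *
      ENNReal.ofReal ((2 : ℝ) ^ (p * l)) * volume (S l) := by
    calc ∫⁻ x, F x ^ p ≤ ∫⁻ x, ∑' l : ℤ, (toMeasurable volume (S l)).indicator
          (fun _ => ENNReal.ofReal ((2 * C₁) ^ p) * ENNReal.ofReal ((2 : ℝ) ^ (p * l))) x := by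
          apply lintegral_mono
          intro x
          refine (layer_ge p C₁ hp0 hC10 (F x)).trans ?_
          apply ENNReal.tsum_le_tsum
          intro l
          split_ifs with h
          · rw [Set.indicator_of_mem]
            apply subset_toMeasurable
            rw [hS]
            exact h
          · exact zero_le
      _ = ∑' l : ℤ, ∫⁻ x, (toMeasurable volume (S l)).indicator
          (fun _ => ENNReal.ofReal ((2 * C₁) ^ p) * ENNReal.ofReal ((2 : ℝ) ^ (p * l))) x :=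
          lintegral_tsum fun l => (measurable_const.indicator
            (measurableSet_toMeasurable _ _)).aemeasurable
      _ = ∑' l : ℤ, ENNReal.ofReal ((2 * C₁) ^ p) *
          ENNReal.ofReal ((2 : ℝ) ^ (p * l)) * volume (S l) := by
          congr 1
          funext l
          rw [lintegral_indicator_const (measurableSet_toMeasurable _ _), measure_toMeasurable]
  have hfin : ∫⁻ x, F x ^ p ≤ ENNReal.ofReal ((2 * C₁) ^ p * (C₄ + C₂ + C₃)) *
      ∫⁻ x, ENNReal.ofReal (g x) ^ p := by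
    refine hint.trans ?_
    have h1 : ∀ l : ℤ, ENNReal.ofReal ((2 * C₁) ^ p) * ENNReal.ofReal ((2 : ℝ) ^ (p * l)) *
        volume (S l) ≤ ENNReal.ofReal ((2 * C₁) ^ p) *
        (ENNReal.ofReal ((2 : ℝ) ^ (p * l)) * volume {x | ¬ Gd R₀ l g x} +
        ENNReal.ofReal ((2 : ℝ) ^ (p * l)) * volume {x | ∃ (k : ℤ) (u : ℕ), 2 ≤ u ∧
          (2 : ℝ) ^ l / (u : ℝ) ^ 2 ≤ |er c φ τ u k (fh l g) x|} +
        ENNReal.ofReal ((2 : ℝ) ^ (p * l)) * volume {x | Gd R₀ l g x ∧ ∃ k : ℤ,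
          ENNReal.ofReal ((2 : ℝ) ^ l) ≤
            ∑' u : ℕ, (if 2 ≤ u then Ht c φ τ u k (fh l g) x else 0)}) := by
      intro l
      rw [mul_assoc, ← mul_add, ← mul_add]
      gcongr
      exact hvol l
    refine (ENNReal.tsum_le_tsum h1).trans ?_
    rw [ENNReal.tsum_mul_left, ENNReal.tsum_add, ENNReal.tsum_add]
    have e1 : ENNReal.ofReal ((2 * C₁) ^ p * (C₄ + C₂ + C₃)) *
        (∫⁻ x, ENNReal.ofReal (g x) ^ p) =
        ENNReal.ofReal ((2 * C₁) ^ p) * (ENNReal.ofReal C₄ * (∫⁻ x, ENNReal.ofReal (g x) ^ p) +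
          ENNReal.ofReal C₂ * (∫⁻ x, ENNReal.ofReal (g x) ^ p) +
          ENNReal.ofReal C₃ * (∫⁻ x, ENNReal.ofReal (g x) ^ p)) := by
      rw [ENNReal.ofReal_mul (by positivity), ENNReal.ofReal_add (by positivity) (by linarith),
        ENNReal.ofReal_add hC4.le hC2.le]
      ring
    rw [e1]
    gcongr
    · exact hB g hg hg0
    · exact hE g hg hg0
    · rw [hp]
      exact hV R₀ g hR3 hg hg0
  rw [hF] at hfin
  exact hfin

end Pool.Agent.Helper11.P3F
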